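import Pool.Agent.Helper92.RK.Alg

set_option autoImplicit false

/-!
# Swarm RK, part ASM: the theorem for formulas as sets of terms (assembly)
-/

namespace Pool.Agent.Helper6.RK.ASM

open Finset
open Pool.Agent.Helper92
open Pool.Agent.Helper92.RK
open Pool.Agent.Helper92.AM (sample)

section prob

variable {α : Type} [Fintype α]

theorem prob_mono {E E' : α → Prop} (h : ∀ x, E x → E' x) : AM.prob E ≤ AM.prob E' := by
  classical
  rw [AM.prob_eq, AM.prob_eq]
  refine div_le_div_of_nonneg_right ?_ (Nat.cast_nonneg _)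
  exact_mod_cast Finset.card_le_card (fun x hx => by
    simp only [Finset.mem_filter, Finset.mem_univ, true_and] at hx ⊢
    exact h x hx)

theorem prob_or (E E' : α → Prop) :
    AM.prob (fun x => E x ∨ E' x) ≤ AM.prob E + AM.prob E' := by
  classical
  rw [AM.prob_eq, AM.prob_eq, AM.prob_eq, ← add_div]
  refine div_le_div_of_nonneg_right ?_ (Nat.cast_nonneg _)
  have : (univ.filter fun x => E x ∨ E' x) ⊆ univ.filter E ∪ univ.filter E' := by
    intro x hx
    simp only [Finset.mem_filter, Finset.mem_univ, true_and, Finset.mem_union] at hx ⊢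
    exact hx
  exact_mod_cast (Finset.card_le_card this).trans (Finset.card_union_le _ _)

theorem prob_nonneg (E : α → Prop) : 0 ≤ AM.prob E := by
  classical
  rw [AM.prob_eq]; positivity

/-- Markov's inequality. -/
theorem markov (g : α → ℝ) (hg : ∀ x, 0 ≤ g x) {a : ℝ} (ha : 0 < a) :
    AM.prob (fun x => a < g x) ≤ (∑ x, g x) / Fintype.card α / a := by
  classical
  rw [AM.prob_eq, div_div, mul_comm, ← div_div]
  refine div_le_div_of_nonneg_right ?_ (Nat.cast_nonneg _)
  rw [le_div_iff₀ ha]
  calc ((univ.filter fun x => a < g x).card : ℝ) * a = ∑ x ∈ univ.filter fun x => a < g x, a := by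
        rw [Finset.sum_const, nsmul_eq_mul]
    _ ≤ ∑ x ∈ univ.filter fun x => a < g x, g x := by
        refine Finset.sum_le_sum fun x hx => ?_
        simp only [Finset.mem_filter, Finset.mem_univ, true_and] at hx
        exact hx.le
    _ ≤ ∑ x, g x := Finset.sum_le_sum_of_subset_of_nonneg (Finset.filter_subset _ _)
        fun x _ _ => hg x

end prob

theorem pr_eq_prob {n : ℕ} (E : (Fin n → Bool) → Prop) : pr E = AM.prob E := by
  classical
  rw [AM.prob_eq]
  unfold pr
  rw [show ((Fintype.card (Fin n → Bool) : ℕ) : ℝ) = 2 ^ n by simp]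

theorem nv_sample {n m : ℕ} (hm : 0 < m) (f : (Fin n → Bool) → Bool) (x : Fin m → Fin n → Bool) :
    nv (sample f x) = n := by
  obtain ⟨m, rfl⟩ := Nat.exists_eq_succ_of_ne_zero hm.ne'
  simp [nv, sample, List.ofFn_succ]

theorem mem_negs {n m : ℕ} (f : (Fin n → Bool) → Bool) (x : Fin m → Fin n → Bool)
    {z : List Bool} (hz : z ∈ negs (sample f x)) : ∃ y : Fin n → Bool, z = List.ofFn y ∧ f y = false := by
  unfold negs at hz
  rw [List.mem_map] at hz
  obtain ⟨w, hw, rfl⟩ := hz
  rw [List.mem_filter] at hw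
  obtain ⟨hw, hf⟩ := hw
  unfold sample at hw
  rw [List.mem_ofFn] at hw
  obtain ⟨j, rfl⟩ := hw
  exact ⟨x j, rfl, by simpa using hf⟩

theorem hv_true (x : List Bool) : hv ([[]], []) x = true := by
  simp [hv]

theorem main (hSTR : S_STR) (hHOE : S_HOE) (hNEG : S_NEG) (hFPB : S_FPB) (hSPL : S_SPL)
    (hHLF : S_HLF) (hERR : S_ERR) (hCSZ : S_CSZ) (hNUM : S_NUM) : S_ASM := by
  intro k e he
  have heR : (0 : ℝ) < e := by exact_mod_cast he
  obtain ⟨L0, r, D, u, B, q, hq, hstr⟩ := hSTR k (1 / (8 * e)) (1 / (4 * e)) (by positivity)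
    (by positivity)
  obtain ⟨C, hC⟩ := hNUM k e L0 r D u B q he hq
  refine ⟨C, L0, r, D, u, B, q, ?_⟩
  intro n d t m hd ht hm F hF hcon
  obtain ⟨hnt, ht1, hm1, hnL, h4, hA, hBd, hCd⟩ := hC n d t m hd ht hm
  have hmpos : 0 < m := by omega
  have hm2 : 0 < m - m / 2 := by omega
  have hqR : (1 : ℝ) ≤ q := by exact_mod_cast hq
  have htR : (1 : ℝ) ≤ t := by exact_mod_cast ht1
  have hdR : (0 : ℝ) < d := by exact_mod_cast hd
  set f := vb F with hf
  set p0 : ℝ := AM.prob (fun y : Fin n → Bool => f y = false) with hp0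
  set η : ℝ := 1 / (4 * q * t) with hη
  have hη0 : 0 ≤ η := by rw [hη]; positivity
  have hη1 : η ≤ 1 := by
    rw [hη, div_le_one (by positivity)]
    nlinarith
  -- the three bad events
  set E1 : (Fin m → Fin n → Bool) → Prop := fun x =>
    1 / (8 * e : ℝ) < |((negs (sample f (sndH x))).length : ℝ) / ((m - m / 2 : ℕ) : ℝ) - p0| with hE1
  set E2 : (Fin m → Fin n → Bool) → Prop := fun x => ¬ Est F (sample f (fstH x)) D r η with hE2
  set E3 : (Fin m → Fin n → Bool) → Prop := fun x =>
    1 / (4 * e : ℝ) < AM.prob (fun y : Fin n → Bool => f y = false ∧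
      hv (cand t L0 r D u q B n t (sample f (fstH x)), negs (sample f (sndH x)))
        (List.ofFn y) = true) with hE3
  have h8 : (1 : ℝ) / (8 * e) ≤ 1 := by
    rw [div_le_one (by positivity)]
    have : (1 : ℝ) ≤ e := by exact_mod_cast he
    linarith
  have P1 : AM.prob E1 ≤ 1 / (3 * d) := by
    refine ((hSPL n m).1 (fun _ x2 => 1 / (8 * e : ℝ) <
      |((negs (sample f x2)).length : ℝ) / ((m - m / 2 : ℕ) : ℝ) - p0|) _ fun x1 => ?_)
    exact (hNEG n (m - m / 2) f (1 / (8 * e)) hm2 (by positivity) h8).trans hBd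
  have P2 : AM.prob E2 ≤ 1 / (3 * d) := by
    rw [hE2, (hSPL n m).2 (fun x1 => ¬ Est F (sample f x1) D r η)]
    exact (hHOE n D r (m / 2) F η hm1 hη0 hη1).trans hA
  have P3 : AM.prob E3 ≤ 1 / (3 * d) := by
    refine ((hSPL n m).1 (fun x1 x2 => 1 / (4 * e : ℝ) <
      AM.prob (fun y : Fin n → Bool => f y = false ∧
      hv (cand t L0 r D u q B n t (sample f x1), negs (sample f x2))
        (List.ofFn y) = true)) _ fun x1 => ?_)
    obtain ⟨c1, c2⟩ := hCSZ L0 r D u q B n t (sample f x1) ht1 hnt
    have h1 := hFPB n (B * Nat.size t + u + L0) (m - m / 2) (cand t L0 r D u q B n t (sample f x1))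
      f hm2 c2
    have h2 := markov (fun x2 : Fin (m - m / 2) → Fin n → Bool =>
      AM.prob (fun y : Fin n → Bool => f y = false ∧
      hv (cand t L0 r D u q B n t (sample f x1), negs (sample f x2)) (List.ofFn y) = true))
      (fun x2 => prob_nonneg _) (a := 1 / (4 * e : ℝ)) (by positivity)
    refine h2.trans ?_
    have hcard : (Fintype.card (Fin (m - m / 2) → Fin n → Bool) : ℝ) = ((2 : ℝ) ^ n) ^ (m - m / 2) := by
      simp
    rw [hcard]
    have hm2R : (0 : ℝ) < ((m - m / 2 : ℕ) : ℝ) := by exact_mod_cast hm2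
    calc _ ≤ ((cand t L0 r D u q B n t (sample f x1)).length * 2 ^ (B * Nat.size t + u + L0) /
          ((m - m / 2 : ℕ) : ℝ)) / (1 / (4 * e : ℝ)) := by
          exact div_le_div_of_nonneg_right h1 (by positivity)
      _ = 4 * e * ((cand t L0 r D u q B n t (sample f x1)).length *
          2 ^ (B * Nat.size t + u + L0) / ((m - m / 2 : ℕ) : ℝ)) := by
          rw [div_div_eq_mul_div, div_one]; ring
      _ ≤ 4 * e * ((2 * t + 2 : ℝ) ^ 6 * 2 ^ (B * Nat.size t + u + L0) /
          ((m - m / 2 : ℕ) : ℝ)) := by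
          have : (((cand t L0 r D u q B n t (sample f x1)).length : ℕ) : ℝ) ≤ (2 * t + 2 : ℝ) ^ 6 := by
            exact_mod_cast c1
          gcongr
      _ ≤ _ := hCd
  -- the inclusion
  have key : ∀ x : Fin m → Fin n → Bool, 1 / (e : ℝ) < AM.prob (fun y : Fin n → Bool =>
      hv (lrn L0 r D u q B e t (sample f x)) (List.ofFn y) ≠ f y) → E1 x ∨ (E2 x ∨ E3 x) := by
    intro x hx
    by_contra hcontra
    rw [not_or, not_or] at hcontra
    obtain ⟨n1, n2, n3⟩ := hcontra
    rw [hE1] at n1
    rw [hE2] at n2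
    rw [hE3] at n3
    simp only [not_lt, not_not] at n1 n2 n3
    have hlen : (half2 (sample f x)).length = m - m / 2 := by
      rw [(hHLF n m f x).2, AM.sample_length]
    have hm2R : (0 : ℝ) < ((m - m / 2 : ℕ) : ℝ) := by exact_mod_cast hm2
    rw [abs_le] at n1
    have hsplit : (1 : ℝ) / (4 * e) = 2 * (1 / (8 * e)) := by field_simp; norm_num
    have he4 : (1 : ℝ) / e = 8 * (1 / (8 * e)) := by field_simp
    have h8pos : (0 : ℝ) < 1 / (8 * e) := by positivity
    by_cases hcase : 4 * e * (negs (half2 (sample f x))).length ≤ (half2 (sample f x)).length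
    · -- the hypothesis is constant
      have hl : lrn L0 r D u q B e t (sample f x) = ([[]], []) := by
        unfold lrn; rw [if_pos hcase]
      rw [hl] at hx
      have h5 : AM.prob (fun y : Fin n → Bool => hv ([[]], []) (List.ofFn y) ≠ f y) ≤ p0 := by
        refine prob_mono fun y hy => ?_
        rw [hv_true] at hy
        simpa using hy.symm
      rw [hlen, (hHLF n m f x).2] at hcase
      have h6 : ((negs (sample f (sndH x))).length : ℝ) / ((m - m / 2 : ℕ) : ℝ) ≤ 1 / (4 * e) := by
        rw [div_le_div_iff₀ hm2R (by positivity)]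
        have : ((4 * e * (negs (sample f (sndH x))).length : ℕ) : ℝ) ≤ ((m - m / 2 : ℕ) : ℝ) := by
          exact_mod_cast hcase
        push_cast at this ⊢
        linarith
      linarith [n1.1, n1.2]
    · -- the hypothesis is given by the candidates
      have hl : lrn L0 r D u q B e t (sample f x) =
          (cand t L0 r D u q B n t (sample f (fstH x)), negs (sample f (sndH x))) := by
        unfold lrn; rw [if_neg hcase, nv_sample hmpos, (hHLF n m f x).1, (hHLF n m f x).2]
      rw [hlen, (hHLF n m f x).2] at hcase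
      have h6 : 1 / (4 * e) < ((negs (sample f (sndH x))).length : ℝ) / ((m - m / 2 : ℕ) : ℝ) := by
        rw [div_lt_div_iff₀ (by positivity) hm2R]
        have : ((m - m / 2 : ℕ) : ℝ) < ((4 * e * (negs (sample f (sndH x))).length : ℕ) : ℝ) := by
          exact_mod_cast not_le.mp hcase
        push_cast at this ⊢
        linarith
      have hp : 1 / (8 * e) ≤ p0 := by linarith [n1.1, n1.2]
      have hp' : 1 / (8 * e) ≤ pr (fun x => ¬ val F x) := by
        rw [pr_eq_prob]
        refine hp.trans (prob_mono fun y hy => ?_)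
        rw [hf] at hy
        simpa [vb] using hy
      obtain ⟨G, hGF, hG1, hG2⟩ := hstr n F hF hcon hp'
      have h7 := hERR k L0 r D u q B e n t F G (sample f (fstH x)) (negs (sample f (sndH x))) hq he
        (by rw [AM.sample_length]; omega) hnL h4 hF hcon n2 hGF hG1 hG2
        (fun z hz => mem_negs f (sndH x) hz)
      rw [hl] at hx
      have h8 : AM.prob (fun y : Fin n → Bool =>
          hv (cand t L0 r D u q B n t (sample f (fstH x)), negs (sample f (sndH x)))
            (List.ofFn y) ≠ f y) ≤ 1 / (2 * e) + 1 / (4 * e) := by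
        refine le_trans (le_trans (prob_mono (E' := fun y => (vb F y = true ∧
          hv (cand t L0 r D u q B n t (sample f (fstH x)), negs (sample f (sndH x)))
            (List.ofFn y) = false) ∨ (f y = false ∧
          hv (cand t L0 r D u q B n t (sample f (fstH x)), negs (sample f (sndH x)))
            (List.ofFn y) = true)) fun y hy => ?_) (prob_or _ _)) (add_le_add h7 n3)
        have hy' : vb F y = f y := rfl
        rw [hy']
        revert hy
        generalize hv (cand t L0 r D u q B n t (sample f (fstH x)), negs (sample f (sndH x)))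
            (List.ofFn y) = b1
        generalize f y = b2
        cases b1 <;> cases b2 <;> simp
      have h11 : (1 : ℝ) / (2 * e) = 4 * (1 / (8 * e)) := by field_simp; norm_num
      linarith
  calc AM.prob _ ≤ AM.prob (fun x => E1 x ∨ (E2 x ∨ E3 x)) := prob_mono key
    _ ≤ AM.prob E1 + AM.prob (fun x => E2 x ∨ E3 x) := prob_or _ _
    _ ≤ AM.prob E1 + (AM.prob E2 + AM.prob E3) := by gcongr; exact prob_or _ _
    _ ≤ 1 / (3 * d) + (1 / (3 * d) + 1 / (3 * d)) := by gcongr
    _ = 1 / d := by field_simp; norm_num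

end Pool.Agent.Helper6.RK.ASM
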